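import Pool.Agent.J4H81.LV2.Fpr

/-!
# Project LV2: places of a finite extension (helper81)
-/

set_option autoImplicit false

open Height NumberField IsDedekindDomain

namespace Pool.Agent.J4H81.LV2

open Pool.Agent.J4H27.LV2

open scoped NNReal WithZero

/-- the value of a finite place -/
theorem val_eq {K : Type} [Field K] [NumberField K] (v : FinitePlace K) (x : K) :
    v x = (WithZeroMulInt.toNNReal (NumberField.HeightOneSpectrum.absNorm_ne_zero v.maximalIdeal)
      (v.maximalIdeal.valuation K x) : ℝ≥0) := by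
  rw [← FinitePlace.norm_embedding_eq, FinitePlace.norm_embedding']

/-- the place below -/
theorem below {K L : Type} [Field K] [NumberField K] [Field L] [NumberField L] [Algebra K L]
    (w : FinitePlace L) : ∃ v : FinitePlace K, ∃ r : ℝ, 0 < r ∧ ∀ x : K, w (algebraMap K L x) = (v x) ^ r := by
  classical
  set P : HeightOneSpectrum (𝓞 L) := w.maximalIdeal with hP
  let p : HeightOneSpectrum (𝓞 K) := ⟨Ideal.under (𝓞 K) P.asIdeal, Ideal.IsPrime.under _ _, Ideal.IsIntegral.comap_ne_bot _ P.ne_bot⟩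
  have : P.asIdeal.LiesOver p.asIdeal := ⟨rfl⟩
  set v : FinitePlace K := FinitePlace.mk p with hv
  have hvp : v.maximalIdeal = p := FinitePlace.maximalIdeal_mk p
  set e : ℕ := p.asIdeal.ramificationIdx' P.asIdeal with he
  have he0 : e ≠ 0 := Ideal.IsDedekindDomain.ramificationIdx'_ne_zero_of_liesOver P.asIdeal p.ne_bot
  have hN1 : 1 < (Ideal.absNorm P.asIdeal : ℝ) := by
    exact_mod_cast NumberField.HeightOneSpectrum.one_lt_absNorm P
  have hN2 : 1 < (Ideal.absNorm p.asIdeal : ℝ) := by
    exact_mod_cast NumberField.HeightOneSpectrum.one_lt_absNorm p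
  have hl1 := Real.log_pos hN1
  have hl2 := Real.log_pos hN2
  refine ⟨v, e * Real.log (Ideal.absNorm P.asIdeal) / Real.log (Ideal.absNorm p.asIdeal), by positivity, fun x => ?_⟩
  have hr : (e * Real.log (Ideal.absNorm P.asIdeal) / Real.log (Ideal.absNorm p.asIdeal)) ≠ 0 := by positivity
  by_cases hx : x = 0
  · rw [hx, map_zero, map_zero, map_zero, Real.zero_rpow hr]
  have h1 := val_eq w (algebraMap K L x)
  rw [← hP, ← HeightOneSpectrum.valuation_liesOver L p P x, map_pow] at h1
  have h2 : v x = (WithZeroMulInt.toNNReal (NumberField.HeightOneSpectrum.absNorm_ne_zero p)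
      (p.valuation K x) : ℝ≥0) := by
    rw [hv, FinitePlace.mk_apply, FinitePlace.norm_embedding']
  have hx' : p.valuation K x ≠ 0 := (Valuation.ne_zero_iff _).2 hx
  rw [h1, h2, WithZeroMulInt.toNNReal_neg_apply _ hx', WithZeroMulInt.toNNReal_neg_apply _ hx']
  set m : ℤ := (WithZero.unzero hx').toAdd with hm
  push_cast
  rw [← zpow_natCast, ← zpow_mul, ← Real.rpow_intCast, ← Real.rpow_intCast, ← Real.rpow_mul (by positivity)]
  rw [Real.rpow_def_of_pos (by linarith), Real.rpow_def_of_pos (by linarith)]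
  congr 1
  push_cast
  field_simp
  rw [he]

theorem t_BCH : S_BCH := by
  intro K L _ _ _ _ _ SS
  classical
  have ht : ∀ v : FinitePlace K, ∃ t : K, t ≠ 0 ∧ v t < 1 := by
    intro v
    obtain ⟨a, ha, ha0⟩ := Submodule.exists_mem_ne_zero_of_ne_bot v.maximalIdeal.ne_bot
    refine ⟨(a : K), fun h => ha0 (by exact_mod_cast h), ?_⟩
    rw [← FinitePlace.norm_embedding_eq]
    exact (FinitePlace.norm_lt_one_iff_mem K v.maximalIdeal a).2 ha
  choose t ht0 ht1 using ht
  obtain ⟨SL, -, hSL⟩ := t_FPR L ∅ (SS.image (fun v => algebraMap K L (t v)))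
  refine ⟨SL, fun w hw => ?_⟩
  obtain ⟨v, r, hr, h⟩ := below (K := K) w
  refine ⟨v, fun hv => ?_, r, hr, h⟩
  have h1 := hSL w hw (algebraMap K L (t v)) (Finset.mem_image_of_mem _ hv)
    (by rw [Ne, map_eq_zero]; exact ht0 v)
  rw [h] at h1
  have h2 := Real.rpow_lt_one (apply_nonneg v (t v)) (ht1 v) hr
  linarith

end Pool.Agent.J4H81.LV2
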