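import Pool.Agent.J4H27.LV2.S1

/-!
# Project LV2: finitely many elements are units outside a finite set of places (helper81)
-/

set_option autoImplicit false

open Height NumberField

namespace Pool.Agent.J4H81.LV2

open Pool.Agent.J4H27.LV2

theorem t_FPR : S_FPR := by
  intro K _ _ SS T
  classical
  have h : ∀ t : K, ∃ F : Finset (FinitePlace K), ∀ v ∉ F, t ≠ 0 → v t = 1 := by
    intro t
    by_cases ht : t = 0
    · exact ⟨∅, fun v _ h => absurd ht h⟩
    · have h1 := FinitePlace.hasFiniteMulSupport ht
      refine ⟨h1.toFinset, fun v hv _ => ?_⟩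
      by_contra hcon
      apply hv
      rw [Set.Finite.mem_toFinset]
      exact hcon
  choose F hF using h
  refine ⟨SS ∪ T.biUnion F, Finset.subset_union_left, fun v hv t ht h0 => ?_⟩
  refine hF t v (fun hv' => hv ?_) h0
  exact Finset.mem_union_right _ (Finset.mem_biUnion.2 ⟨t, ht, hv'⟩)

end Pool.Agent.J4H81.LV2
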